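import Pool.Agent.Q270.VB.Ap
import Pool.Agent.Q263.CM.Cst

/-!
# The digits of `e`, `π` and `√2` in almost all bases

Let `x` be an irrational number which is not a Liouville number, for example `e`, `π` or `√2`. There
is an absolute constant `δ > 0` such that for `B ≥ B₀(x)`:

* if `b` is a random base, uniformly distributed in `1, …, B`, then the fractional parts
  `{b x}, {b² x}, …, {b ^ N x}`, that is the numbers `0.a_2 a_3…`, `0.a_3 a_4…`, … formed by the digits
  of `x` in base `b`, read with the precision `1/q`, are independent and uniformly distributed up to an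
  error `exp(-(log B) ^ δ)` in total variation, for all `N ≤ (log B) ^ δ` and `q ≤ exp((log B) ^ δ)`;
* in particular the number of the `i ≤ N` with `{b ^ i x} < p/q` has the binomial distribution with the
  parameters `N` and `p/q`, up to this error in total variation;
* in all bases `b ≤ B` outside an exceptional set with at most `B exp(-(log B) ^ κ)` elements the
  sequence `{b ^ i x}` has, in all windows `m < i ≤ m + n` with `m + n ≤ (log b) ^ δ`, a discrepancy
  which is at most `√n (log b) ^ ε`, for every `ε > 0`.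

Weyl's theorem gives the equidistribution of `(b x, …, b ^ N x)` for a fixed `N`.

Proof. The exponential sums `∑_{b ≤ B} e(x ∑ l_i b ^ i)` of degree `≤ (log B) ^ δ`, with the coefficients
`l_i` up to `exp(√(log B))`, are bounded by `B exp(-√(log B))` by Vinogradov's mean value method, since
the leading coefficients are multiples of `x`; the indicators of boxes are approximated by
trigonometric polynomials; the concentration inequality for independent variables gives the
discrepancy.
-/

set_option autoImplicit false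

namespace Pool.Agent.Results.MP_7e9a3a_nt.AlmostAllBases

open Finset

/-- The first digit in base `q` of the fractional part `{b ^ n x} = 0.a_{n+1} a_{n+2} …`, where `a_i`
are the digits of `x` in base `b`: the integer `0 ≤ d < q` with `d / q ≤ {b ^ n x} < (d + 1) / q`. -/
noncomputable def lead (q : ℕ) (x : ℝ) (b n : ℕ) : ℕ := ⌊(q : ℝ) * Int.fract (x * (b : ℝ) ^ n)⌋₊

/-- the number of the `m < i ≤ m + n` with `s ≤ {b ^ i x} < t` -/
noncomputable def count (x : ℝ) (b m n : ℕ) (s t : ℝ) : ℕ :=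
  {i : ℕ | m < i ∧ i ≤ m + n ∧ s ≤ Int.fract (x * (b : ℝ) ^ i) ∧
    Int.fract (x * (b : ℝ) ^ i) < t}.ncard

/-- Square root discrepancy of the digits of `x` in base `b`: in all windows `m < i ≤ m + n` with
`m + n ≤ (log b) ^ δ` the number of the `i` with `s ≤ {b ^ i x} < t` differs from `n (t - s)` by at most
`√n (log b) ^ ε`, for all `0 ≤ s ≤ t ≤ 1`. -/
def Good (x δ ε : ℝ) (b : ℕ) : Prop :=
  ∀ m n : ℕ, (m : ℝ) + n ≤ Real.log b ^ δ → ∀ s t : ℝ, 0 ≤ s → s ≤ t → t ≤ 1 →
    |(count x b m n s t : ℝ) - n * (t - s)| ≤ √n * Real.log b ^ ε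

lemma count_eq (x : ℝ) (b m n : ℕ) (s t : ℝ) :
    count x b m n s t = Pool.Agent.Q270.VB.cnt (fun _ : Fin 1 => x) b m n (fun _ => s)
      (fun _ => t) := by
  classical
  unfold count Pool.Agent.Q270.VB.cnt
  rw [← Set.ncard_coe_finset]
  congr 1
  ext i
  simp only [Set.mem_ofPred_eq, Finset.coe_filter, Finset.mem_Ioc, forall_const]
  tauto

lemma good_of_GB {x δ ε : ℝ} {b : ℕ} (h : Pool.Agent.Q270.VB.GB δ ε (fun _ : Fin 1 => x) b) :
    Good x δ ε b := by
  intro m n hmn s t hs hst ht
  have h1 := h m n hmn (fun _ => s) (fun _ => t) (fun _ => hs) (fun _ => hst) (fun _ => ht)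
  rw [count_eq]
  simpa using h1

theorem result :
    (∀ x ∈ ({Real.exp 1, Real.pi, √2} : Set ℝ), Irrational x ∧ ¬ Liouville x) ∧
    ∃ δ : ℝ, 0 < δ ∧ ∀ x : ℝ, Irrational x → ¬ Liouville x →
      -- independence in total variation, and the binomial law
      (∃ B₀ : ℕ, ∀ B : ℕ, B₀ ≤ B → ∀ N q : ℕ, (N : ℝ) ≤ Real.log B ^ δ → 1 ≤ q →
        (q : ℝ) ≤ Real.exp (Real.log B ^ δ) →
        (∀ W : Set (Fin N → ℕ),
          |({b : ℕ | 1 ≤ b ∧ b ≤ B ∧ (fun i : Fin N => lead q x b (i + 1)) ∈ W}.ncard : ℝ) / B -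
            ({w : Fin N → ℕ | (∀ i, w i < q) ∧ w ∈ W}.ncard : ℝ) / (q : ℝ) ^ N| ≤
              Real.exp (-(Real.log B ^ δ))) ∧
        (∀ p : ℕ, p ≤ q → ∀ A : Finset ℕ,
          |({b : ℕ | 1 ≤ b ∧ b ≤ B ∧ count x b 0 N 0 (p / q) ∈ A}.ncard : ℝ) / B -
            ∑ a ∈ A, N.choose a * ((p : ℝ) / q) ^ a * (1 - (p : ℝ) / q) ^ (N - a)| ≤
              Real.exp (-(Real.log B ^ δ)))) ∧
      -- the discrepancy in almost all bases
      (∀ ε : ℝ, 0 < ε → ∃ κ : ℝ, 0 < κ ∧ ∃ B₀ : ℕ, ∀ B : ℕ, B₀ ≤ B →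
        ({b : ℕ | 1 ≤ b ∧ b ≤ B ∧ ¬ Good x δ ε b}.ncard : ℝ) ≤
          B * Real.exp (-(Real.log B ^ κ))) := by
  refine ⟨?_, ?_⟩
  · intro x hx
    simp only [Set.mem_insert_iff, Set.mem_singleton_iff] at hx
    rcases hx with rfl | rfl | rfl
    · exact ⟨Pool.Agent.Q263.CM.irr_e, Pool.Agent.Q263.CM.nl_e⟩
    · exact ⟨irrational_pi, Pool.Agent.Q263.CM.nl_pi⟩
    · exact ⟨irrational_sqrt_two, Pool.Agent.Q263.CM.nl_sqrt⟩
  obtain ⟨δ, hδ0, hδ1, htv, hdisc⟩ := Pool.Agent.Q270.VB.main
  have hlogt : Filter.Tendsto (fun B : ℕ => Real.log B) Filter.atTop Filter.atTop :=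
    Real.tendsto_log_atTop.comp tendsto_natCast_atTop_atTop
  refine ⟨δ, hδ0, fun x hx hL => ?_⟩
  obtain ⟨c, hc, τ, hτ, hft⟩ := Pool.Agent.Q270.VB.ft_of_nl hx hL
  obtain ⟨B₁, hB₁⟩ := Filter.eventually_atTop.1
    (hlogt.eventually_ge_atTop (16 * Real.log (2 / c)))
  constructor
  · obtain ⟨B₀, hB₀⟩ := htv 1 τ hτ
    refine ⟨max B₀ B₁, ?_⟩
    intro B hB N q hN hq hqB
    have : NeZero q := ⟨by omega⟩
    have hqp : (0 : ℝ) < q := by exact_mod_cast hq
    have hmain := hB₀ B (le_of_max_le_left hB) c hc (hB₁ B (le_of_max_le_right hB))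
      (fun _ : Fin 1 => x) hft N hN q hqB
    constructor
    · intro W
      have h1 := hmain {w : Fin N → Fin 1 → Fin q | (fun i => (w i 0 : ℕ)) ∈ W}
      rw [pow_one] at h1
      have h2 : {b : ℕ | 1 ≤ b ∧ b ≤ B ∧ (fun i : Fin N => lead q x b (i + 1)) ∈ W} =
          {b : ℕ | 1 ≤ b ∧ b ≤ B ∧ Pool.Agent.Q270.VB.cell q N (fun _ : Fin 1 => x) b ∈
            {w : Fin N → Fin 1 → Fin q | (fun i => (w i 0 : ℕ)) ∈ W}} := by
        ext b
        have h3 : (fun i : Fin N => ((Pool.Agent.Q270.VB.cell q N (fun _ : Fin 1 => x) b i 0 :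
            Fin q) : ℕ)) = (fun i : Fin N => lead q x b (i + 1)) := by
          funext i
          rw [Pool.Agent.Q270.VB.cell_val]
          rfl
        rw [Set.mem_ofPred_eq, Set.mem_ofPred_eq, Set.mem_ofPred_eq, h3]
      have h3 : {w : Fin N → ℕ | (∀ i, w i < q) ∧ w ∈ W}.ncard =
          {w : Fin N → Fin 1 → Fin q | (fun i => (w i 0 : ℕ)) ∈ W}.ncard := by
        symm
        refine Set.ncard_congr (fun w _ => fun i => (w i 0 : ℕ)) ?_ ?_ ?_
        · intro w hw
          exact ⟨fun i => (w i 0).2, hw⟩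
        · intro w w' _ _ h
          funext i j
          rw [Subsingleton.elim j 0]
          exact Fin.ext (congrFun h i)
        · intro w hw
          exact ⟨fun i _ => ⟨w i, hw.1 i⟩, hw.2, rfl⟩
      rw [h2, h3]
      exact h1
    · intro p hp A
      set D : Set (Fin 1 → Fin q) := {v | (v 0 : ℕ) < p} with hD
      have h1 := hmain {w : Fin N → Fin 1 → Fin q | {i | w i ∈ D}.ncard ∈ A}
      have hDc : D.ncard = p := by
        have h2 : D.ncard = (range p : Finset ℕ).card := by
          rw [← Set.ncard_coe_finset]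
          refine Set.ncard_congr (fun v _ => (v 0 : ℕ)) ?_ ?_ ?_
          · intro v hv
            rw [mem_coe, mem_range]
            exact hv
          · intro v v' _ _ h
            funext j
            rw [Subsingleton.elim j 0]
            exact Fin.ext h
          · intro y hy
            rw [mem_coe, mem_range] at hy
            exact ⟨fun _ => ⟨y, lt_of_lt_of_le hy hp⟩, hy, rfl⟩
        rw [h2, card_range]
      have hcard : Fintype.card (Fin 1 → Fin q) = q := by
        rw [Fintype.card_fun, Fintype.card_fin, Fintype.card_fin, pow_one]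
      rw [pow_one, Pool.Agent.Q270.VB.count_binom, hDc, hcard] at h1
      have h2 : {b : ℕ | 1 ≤ b ∧ b ≤ B ∧ count x b 0 N 0 (p / q) ∈ A} =
          {b : ℕ | 1 ≤ b ∧ b ≤ B ∧ Pool.Agent.Q270.VB.cell q N (fun _ : Fin 1 => x) b ∈
            {w : Fin N → Fin 1 → Fin q | {i | w i ∈ D}.ncard ∈ A}} := by
        ext b
        have h3 : count x b 0 N 0 (p / q) = {i : Fin N |
            Pool.Agent.Q270.VB.cell q N (fun _ : Fin 1 => x) b i ∈ D}.ncard := by
          unfold count
          symm
          refine Set.ncard_congr (fun i _ => (i : ℕ) + 1) ?_ ?_ ?_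
          · intro i hi
            rw [Set.mem_ofPred_eq, hD, Set.mem_ofPred_eq, Pool.Agent.Q270.VB.cell_val] at hi
            refine ⟨by omega, by omega, Int.fract_nonneg _, ?_⟩
            rw [lt_div_iff₀ hqp, mul_comm]
            exact Nat.lt_of_floor_lt hi
          · intro i i' _ _ h
            exact Fin.ext (by omega)
          · intro i hi
            obtain ⟨hi1, hi2, -, hi3⟩ := hi
            refine ⟨⟨i - 1, by omega⟩, ?_, by simp; omega⟩
            rw [Set.mem_ofPred_eq, hD, Set.mem_ofPred_eq, Pool.Agent.Q270.VB.cell_val,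
              Nat.floor_lt (mul_nonneg hqp.le (Int.fract_nonneg _))]
            rw [lt_div_iff₀ hqp, mul_comm] at hi3
            simp only
            rw [Nat.sub_add_cancel (by omega)]
            exact hi3
        rw [Set.mem_ofPred_eq, Set.mem_ofPred_eq, Set.mem_ofPred_eq, h3]
      rw [h2]
      convert h1 using 2
      congr 1
      push_cast
      rw [sum_div]
      refine sum_congr rfl fun a _ => ?_
      rcases le_or_gt a N with h5 | h5
      · rw [Nat.cast_sub hp, div_pow, one_sub_div hqp.ne', div_pow]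
        have h6 : (q : ℝ) ^ N = q ^ a * q ^ (N - a) := by
          rw [← pow_add]
          congr 1
          omega
        rw [h6]
        field_simp
      · rw [Nat.choose_eq_zero_of_lt h5]
        simp
  · intro ε hε
    obtain ⟨κ₀, hκ₀, B₀, hB₀⟩ := hdisc 1 τ hτ ε hε
    obtain ⟨κ, hκ, B₂, hB₂⟩ := Pool.Agent.Q270.VB.add_small hκ₀
    refine ⟨κ, hκ, max (max B₀ B₁) B₂, ?_⟩
    intro B hB
    have h1 := hB₀ B (le_of_max_le_left (le_of_max_le_left hB)) c hc
      (hB₁ B (le_of_max_le_right (le_of_max_le_left hB))) (fun _ : Fin 1 => x) hft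
    refine hB₂ B (le_of_max_le_right hB) (fun b => ¬ Good x δ ε b) ?_
    refine le_trans (Nat.cast_le.2 (Set.ncard_le_ncard ?_ ?_)) h1
    · rintro b ⟨hb1, hb2, hb3, hb4⟩
      exact ⟨hb1, hb2, hb3, fun h => hb4 (good_of_GB h)⟩
    · exact (Set.finite_Iic B).subset fun b hb => hb.2.1

end Pool.Agent.Results.MP_7e9a3a_nt.AlmostAllBases
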