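import Mathlib
import Pool.Agent.Q77.Cos.Dens

/-!
# Digits of the numbers `x + k / s ^ n`, `x = e, π, √2` or any real number

Let `B` and `s ≥ 2` be given. There is a constant `C` such that for every real `x`, every `n` and
every `N ≥ s ^ n` all but at most `C / ε ^ 14` of the `s ^ n` numbers `x + k / s ^ n`,
`0 ≤ k < s ^ n`, are `ε`-normal up to `N` in all bases `b ≤ B` coprime to `s`. The number of
exceptions is bounded independently of `n`, `N` and `x`. Adding a rational number does not change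
normality (Wall), so each of these numbers is normal in base `b` if and only if `x` is.

Proof: `∑ k < q, |∑ m < N, e(h b^m (x + k/q))|² ` is at most `q` times the number of pairs
`m, l < N` with `q ∣ h (b ^ m - b ^ l)`; the order of `b` modulo a divisor `d` of `s ^ n` is at
least `d / κ` with `κ = b ^ (2 φ(s)) - 1`.
-/

set_option autoImplicit false

open Finset Filter

namespace Pool.Agent.Results.MP_7e9a3a_nt.RationalShifts

/-- number of `m < N` with `α ≤ {b ^ m y} < β`; for `α = W / b ^ l`, `β = (W + 1) / b ^ l` this is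
the number of occurrences of a word of length `l` which start at the first `N` digits of `y` -/
noncomputable def visits (b : ℕ) (y α β : ℝ) (N : ℕ) : ℕ :=
  {m : ℕ | m < N ∧ α ≤ Int.fract ((b : ℝ) ^ m * y) ∧ Int.fract ((b : ℝ) ^ m * y) < β}.ncard

/-- `ε`-normal up to `N` in all bases `b ≤ B` which are coprime to `s` -/
def Good (B s : ℕ) (ε : ℝ) (N : ℕ) (y : ℝ) : Prop :=
  ∀ b : ℕ, 2 ≤ b → b ≤ B → b.Coprime s → ∀ α β : ℝ, 0 ≤ α → α ≤ β → β ≤ 1 →
    |(visits b y α β N : ℝ) - (β - α) * N| ≤ ε * N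

/-- mean of the exponential sum of frequency `h` over `m < N` -/
noncomputable def weyl (b : ℕ) (h : ℤ) (N : ℕ) (y : ℝ) : ℂ :=
  (∑ m ∈ range N, Complex.exp (2 * Real.pi * Complex.I * (h * ((b : ℝ) ^ m * y : ℝ)))) / N

lemma weyl_eq (b : ℕ) (h : ℤ) (N : ℕ) (y : ℝ) :
    weyl b h N y = Pool.Agent.Q77.Cos.W b h N y / N := by
  unfold weyl Pool.Agent.Q77.Cos.W Pool.Agent.H332R2.Lit.e
  congr 1
  refine sum_congr rfl fun m _ => ?_
  congr 1
  push_cast
  ring

open Classical in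
lemma visits_eq (b : ℕ) (y α β : ℝ) (N : ℕ) :
    visits b y α β N = ((range N).filter (fun m : ℕ => α ≤ Int.fract ((b : ℝ) ^ m * y) ∧
      Int.fract ((b : ℝ) ^ m * y) < β)).card := by
  unfold visits
  rw [← Set.ncard_coe_finset]
  congr 1
  ext m
  simp

lemma good_iff (B s : ℕ) (ε : ℝ) (N : ℕ) (y : ℝ) :
    Good B s ε N y ↔ ∀ b : ℕ, 2 ≤ b → b ≤ B → b.Coprime s → Pool.Agent.Q77.Cos.EN b ε N y := by
  classical
  unfold Good Pool.Agent.Q77.Cos.EN
  constructor
  · intro h b h1 h2 h3 α β h4 h5 h6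
    have := h b h1 h2 h3 α β h4 h5 h6
    rw [visits_eq] at this
    convert this using 6
  · intro h b h1 h2 h3 α β h4 h5 h6
    have := h b h1 h2 h3 α β h4 h5 h6
    rw [visits_eq]
    convert this using 6

open Classical in
lemma shifts (B s : ℕ) (hs : 2 ≤ s) (x ε δ : ℝ) (hε : 0 < ε) (hε1 : ε ≤ 1) (hδ : 0 < δ)
    (F : Finset ℚ)
    (hF : ∀ r ∈ F, (0 ≤ r ∧ r < 1 ∧ ∃ n, r.den ∣ s ^ n) ∧ ¬ ∃ᶠ T : ℕ in atTop, (1 - δ) * T ≤
      ({N : ℕ | N < T ∧ Good B s ε N (x + r)}.ncard : ℝ)) :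
    (F.card : ℝ) ≤
      (∑ b ∈ range (B + 1), 16 * 729 ^ 4 * (Pool.Agent.Q77.Cos.kap b s : ℝ)) / ε ^ 14 / δ := by
  set C0 : ℝ := (∑ b ∈ range (B + 1), 16 * 729 ^ 4 * (Pool.Agent.Q77.Cos.kap b s : ℝ)) / ε ^ 14
    with hC0
  have hC0' : 0 ≤ C0 := by
    rw [hC0]
    apply div_nonneg (Finset.sum_nonneg fun b _ => by positivity)
    positivity
  obtain ⟨n, hn⟩ := Pool.Agent.Q77.Cos.rat_form s (by omega) F (fun r hr => (hF r hr).1)
  have hk : ∀ r : ℚ, ∃ k : ℕ, r ∈ F → k < s ^ n ∧ (r : ℚ) = k / (s : ℚ) ^ n := by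
    intro r
    by_cases hr : r ∈ F
    · obtain ⟨k, hk⟩ := hn r hr
      exact ⟨k, fun _ => hk⟩
    · exact ⟨0, fun h => absurd h hr⟩
  choose f hf using hk
  refine Pool.Agent.Q77.Cos.density C0 (s ^ n) F (fun r N => Good B s ε N (x + r)) ?_ hC0' δ hδ ?_
  · intro N hN
    have h1 := Pool.Agent.Q77.Cos.bad_all B s (by omega) n N hN ε hε hε1 x
    refine le_trans ?_ h1
    have h2 : (F.filter (fun r : ℚ => ¬ Good B s ε N (x + r))).card ≤
        ((range (s ^ n)).filter (fun k : ℕ => ¬ ∀ b : ℕ, 2 ≤ b → b ≤ B → b.Coprime s →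
          Pool.Agent.Q77.Cos.EN b ε N (x + k / (s : ℝ) ^ n))).card := by
      apply card_le_card_of_injOn f
      · intro r hr
        rw [mem_coe, mem_filter] at hr
        obtain ⟨h3, h4⟩ := hf r hr.1
        rw [mem_coe, mem_filter, mem_range]
        refine ⟨h3, ?_⟩
        rw [← good_iff]
        have h5 : ((r : ℚ) : ℝ) = (f r : ℝ) / (s : ℝ) ^ n := by
          have h6 := congrArg (fun q : ℚ => (q : ℝ)) h4
          push_cast at h6
          exact h6
        rw [← h5]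
        exact hr.2
      · intro r hr r' hr' heq
        rw [mem_coe, mem_filter] at hr hr'
        rw [(hf r hr.1).2, (hf r' hr'.1).2, heq]
    exact_mod_cast h2
  · intro r hr hcon
    apply (hF r hr).2
    refine hcon.mono fun T hT => ?_
    convert hT using 2
    rw [← Set.ncard_coe_finset]
    congr 1
    ext N
    simp

/-- **Rational shifts.** -/
theorem result (B s : ℕ) (hs : 2 ≤ s) : ∃ C : ℝ, 0 < C ∧ ∀ x : ℝ,
    -- (1) mean squares of the exponential sums over the shifts `k / s ^ n`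
    (∀ b : ℕ, 2 ≤ b → b ≤ B → b.Coprime s → ∀ (n N : ℕ) (h : ℤ), h ≠ 0 → s ^ n ≤ N →
      ∑ k ∈ range (s ^ n), ‖weyl b h N (x + k / (s : ℝ) ^ n)‖ ^ 2 ≤ C * |(h : ℝ)|) ∧
    -- (2) boundedly many exceptions at every `N`
    (∀ (n N : ℕ) (ε : ℝ), s ^ n ≤ N → 0 < ε → ε ≤ 1 →
      ({k : ℕ | k < s ^ n ∧ ¬ Good B s ε N (x + k / (s : ℝ) ^ n)}.ncard : ℝ) ≤ C / ε ^ 14) ∧
    -- (3) boundedly many exceptions among all elements of `ℤ[1/s]/ℤ`, for most `N`
    (∀ ε δ : ℝ, 0 < ε → ε ≤ 1 → 0 < δ → ∀ F : Finset ℚ,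
      (∀ r ∈ F, (0 ≤ r ∧ r < 1 ∧ ∃ n, r.den ∣ s ^ n) ∧ ¬ ∃ᶠ T : ℕ in atTop, (1 - δ) * T ≤
        ({N : ℕ | N < T ∧ Good B s ε N (x + r)}.ncard : ℝ)) → (F.card : ℝ) ≤ C / (δ * ε ^ 14)) ∧
    -- (4) words: boundedly many exceptions for each length
    (∀ l : ℕ, ∀ F : Finset ℚ,
      (∀ r ∈ F, (0 ≤ r ∧ r < 1 ∧ ∃ n, r.den ∣ s ^ n) ∧ ∃ b : ℕ, 2 ≤ b ∧ b ≤ B ∧ b.Coprime s ∧
        ∃ W : ℕ, W < b ^ l ∧ ¬ ∃ᶠ m : ℕ in atTop,
          ((W : ℝ) / (b : ℝ) ^ l ≤ Int.fract ((b : ℝ) ^ m * (x + r)) ∧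
            Int.fract ((b : ℝ) ^ m * (x + r)) < ((W : ℝ) + 1) / (b : ℝ) ^ l)) →
      (F.card : ℝ) ≤ C * (B : ℝ) ^ (14 * l)) := by
  classical
  set K : ℝ := ∑ b ∈ range (B + 1), 16 * 729 ^ 4 * (Pool.Agent.Q77.Cos.kap b s : ℝ) with hK
  have hK0 : 0 ≤ K := Finset.sum_nonneg fun b _ => by positivity
  refine ⟨2 ^ 15 * K + 1, by positivity, fun x => ⟨?_, ?_, ?_, ?_⟩⟩
  · intro b hb hbB hcop n N h hh hN
    have h1 := Pool.Agent.Q77.Cos.moment_pow b s hb (by omega) hcop n N hN h hh x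
    have hNpos : 0 < N := lt_of_lt_of_le (Nat.pow_pos (by omega)) hN
    have hN0 : (0 : ℝ) < N := by exact_mod_cast hNpos
    have h2 : ∑ k ∈ range (s ^ n), ‖weyl b h N (x + k / (s : ℝ) ^ n)‖ ^ 2 =
        (∑ k ∈ range (s ^ n), ‖Pool.Agent.Q77.Cos.W b h N (x + k / (s : ℝ) ^ n)‖ ^ 2) /
          (N : ℝ) ^ 2 := by
      rw [sum_div]
      refine sum_congr rfl fun k _ => ?_
      rw [weyl_eq, norm_div, div_pow, Complex.norm_natCast]
    rw [h2, div_le_iff₀ (by positivity)]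
    refine h1.trans ?_
    have h3 : 2 * (Pool.Agent.Q77.Cos.kap b s : ℝ) ≤ 2 ^ 15 * K + 1 := by
      have h4 : 16 * 729 ^ 4 * (Pool.Agent.Q77.Cos.kap b s : ℝ) ≤ K := by
        rw [hK]
        exact Finset.single_le_sum (f := fun b => 16 * 729 ^ 4 * (Pool.Agent.Q77.Cos.kap b s : ℝ))
          (fun b _ => by positivity) (mem_range.2 (by omega))
      have h5 : (0 : ℝ) ≤ Pool.Agent.Q77.Cos.kap b s := Nat.cast_nonneg _
      nlinarith
    gcongr
  · intro n N ε hN hε hε1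
    have h1 := Pool.Agent.Q77.Cos.bad_all B s (by omega) n N hN ε hε hε1 x
    rw [← hK] at h1
    have h2 : {k : ℕ | k < s ^ n ∧ ¬ Good B s ε N (x + k / (s : ℝ) ^ n)}.ncard =
        ((range (s ^ n)).filter (fun k : ℕ => ¬ ∀ b : ℕ, 2 ≤ b → b ≤ B → b.Coprime s →
          Pool.Agent.Q77.Cos.EN b ε N (x + k / (s : ℝ) ^ n))).card := by
      rw [← Set.ncard_coe_finset]
      congr 1
      ext k
      rw [mem_coe, mem_filter, mem_range, ← good_iff]
      rfl
    rw [h2]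
    refine h1.trans ?_
    apply div_le_div_of_nonneg_right _ (by positivity)
    linarith
  · intro ε δ hε hε1 hδ F hF
    have h1 := shifts B s hs x ε δ hε hε1 hδ F hF
    rw [← hK, div_div] at h1
    refine h1.trans ?_
    rw [mul_comm (ε ^ 14) δ]
    apply div_le_div_of_nonneg_right _ (by positivity)
    linarith
  · intro l F hF
    rcases F.eq_empty_or_nonempty with rfl | ⟨r0, hr0⟩
    · simp only [card_empty, Nat.cast_zero]
      positivity
    obtain ⟨-, b0, hb01, hb02, -⟩ := hF r0 hr0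
    have hB2 : 2 ≤ B := hb01.trans hb02
    have hB0 : (0 : ℝ) < B := by exact_mod_cast (by omega : 0 < B)
    have hB1 : (1 : ℝ) ≤ B := by exact_mod_cast (by omega : 1 ≤ B)
    set ε : ℝ := 1 / (2 * (B : ℝ) ^ l) with hε
    have hBl : (1 : ℝ) ≤ (B : ℝ) ^ l := one_le_pow₀ hB1
    have hε0 : 0 < ε := by rw [hε]; positivity
    have hε1 : ε ≤ 1 := by
      rw [hε, div_le_one (by positivity)]
      linarith
    have h1 := shifts B s hs x ε (1 / 2) hε0 hε1 (by norm_num) F (fun r hr => by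
      obtain ⟨h1, b, hb1, hb2, hb3, W, hW, hfin⟩ := hF r hr
      refine ⟨h1, ?_⟩
      rw [not_frequently] at hfin
      obtain ⟨m0, hm0⟩ := eventually_atTop.1 hfin
      intro hcon
      have hbR : (2 : ℝ) ≤ b := by exact_mod_cast hb1
      have hbB : (b : ℝ) ≤ B := by exact_mod_cast hb2
      have hbl : (0 : ℝ) < (b : ℝ) ^ l := by positivity
      -- good times are bounded
      have hgood : ∀ N : ℕ, Good B s ε N (x + r) → (N : ℝ) ≤ 2 * (B : ℝ) ^ l * m0 := by
        intro N hN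
        have hWR : (W : ℝ) + 1 ≤ (b : ℝ) ^ l := by exact_mod_cast hW
        have h2 := hN b hb1 hb2 hb3 ((W : ℝ) / (b : ℝ) ^ l) (((W : ℝ) + 1) / (b : ℝ) ^ l)
          (by positivity) (by gcongr; linarith) (by rw [div_le_one hbl]; exact hWR)
        have h3 : (visits b (x + r) ((W : ℝ) / (b : ℝ) ^ l) (((W : ℝ) + 1) / (b : ℝ) ^ l) N : ℝ) ≤
            m0 := by
          have h4 : visits b (x + r) ((W : ℝ) / (b : ℝ) ^ l) (((W : ℝ) + 1) / (b : ℝ) ^ l) N ≤
              m0 := by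
            unfold visits
            calc _ ≤ (Set.Iio m0).ncard := by
                  apply Set.ncard_le_ncard _ (Set.finite_Iio m0)
                  rintro m ⟨-, hm2, hm3⟩
                  by_contra hcon
                  exact hm0 m (not_lt.1 hcon) ⟨hm2, hm3⟩
              _ = m0 := by rw [← Finset.coe_range, Set.ncard_coe_finset, card_range]
          exact_mod_cast h4
        have h5 : (((W : ℝ) + 1) / (b : ℝ) ^ l - (W : ℝ) / (b : ℝ) ^ l) = 1 / (b : ℝ) ^ l := by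
          ring
        rw [h5] at h2
        have h6 := (abs_le.1 h2).1
        have h7 : 1 / (B : ℝ) ^ l ≤ 1 / (b : ℝ) ^ l := by gcongr
        have h8 : ε = 1 / (B : ℝ) ^ l / 2 := by rw [hε]; field_simp
        have hN0 : (0 : ℝ) ≤ N := Nat.cast_nonneg _
        have h9 : 1 / (B : ℝ) ^ l / 2 * N ≤ m0 := by
          rw [h8] at h6
          nlinarith
        have hBlp : (0 : ℝ) < (B : ℝ) ^ l := by positivity
        calc (N : ℝ) = 2 * (B : ℝ) ^ l * (1 / (B : ℝ) ^ l / 2 * N) := by field_simp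
          _ ≤ _ := by gcongr
      obtain ⟨N1, hN1⟩ := exists_nat_gt (2 * (B : ℝ) ^ l * m0)
      obtain ⟨T, hT, hT2⟩ := (hcon.and_eventually (eventually_gt_atTop (2 * N1))).exists
      have h2 : {N : ℕ | N < T ∧ Good B s ε N (x + r)}.ncard ≤ N1 := by
        calc _ ≤ (Set.Iio N1).ncard := by
              apply Set.ncard_le_ncard _ (Set.finite_Iio N1)
              rintro N ⟨-, hN⟩
              have := (hgood N hN).trans_lt hN1
              exact_mod_cast this
          _ = N1 := by rw [← Finset.coe_range, Set.ncard_coe_finset, card_range]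
      have h3 : ({N : ℕ | N < T ∧ Good B s ε N (x + r)}.ncard : ℝ) ≤ N1 := by exact_mod_cast h2
      have h4 : (2 : ℝ) * N1 < T := by exact_mod_cast hT2
      linarith)
    rw [← hK] at h1
    refine h1.trans ?_
    have h2 : K / ε ^ 14 / (1 / 2) = 2 ^ 15 * K * (B : ℝ) ^ (14 * l) := by
      rw [hε]
      have hBlp : (0 : ℝ) < (B : ℝ) ^ l := by positivity
      rw [mul_comm 14 l, pow_mul]
      field_simp
    rw [h2]
    have : (0 : ℝ) ≤ (B : ℝ) ^ (14 * l) := by positivity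
    nlinarith

end Pool.Agent.Results.MP_7e9a3a_nt.RationalShifts
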