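import Mathlib
import Pool.Agent.Q263.CM.NLF
import Pool.Agent.Q263.CM.Cst

/-!
# Digits of the multiples of `e`, `π` and `√2` by integers with restricted digits

Let `x` be `e`, `π`, `√2` or any irrational number which is not a Liouville number. Choose for each
`i < k` a set `D i` of at least two digits in base `g` and consider the integers `m < g ^ k` whose
`i`-th digit is in `D i`; there may be as few as `2 ^ k` of them. For all but the proportion `k ^ (-c)`
of these `m`, in all bases `b ≤ k ^ c` the first `k ^ θ` digits of `y + m x` contain all words with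
the right frequency, up to an error of `k ^ (θ - c)`.

Proof. The exponential sum over these `m` at a frequency `G x` is a product of `k` factors, and one
has to find many `i < k` for which `g ^ i G x` is not close to an integer. As `x` is not a Liouville
number there is such an `i` in every interval `[t, K t]` with `t > log |G|`, hence the sum is
`O((log |G| / k) ^ c)`. This is used for the differences `G = h (b ^ u - b ^ v)` in a second moment.
-/

set_option autoImplicit false

open Finset

namespace Pool.Agent.Results.MP_7e9a3a_nt.RestrictedMultiples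

/-- The integers less than `g ^ k` whose `i`-th digit in base `g` belongs to `D i` for `i < k`. -/
def Dig (g k : ℕ) (D : Fin k → Finset ℕ) : Finset ℕ :=
  (range (g ^ k)).filter (fun n => ∀ i : Fin k, n / g ^ (i : ℕ) % g ∈ D i)

/-- `D` consists of `k` sets of digits in base `g`, each with at least two elements. -/
def Digits (g k : ℕ) (D : Fin k → Finset ℕ) : Prop :=
  (∀ i, ∀ d ∈ D i, d < g) ∧ ∀ i, 2 ≤ (D i).card

/-- In every base `2 ≤ b ≤ P` and for every interval `[α, γ)` in `[0, 1]`, the number of the places
`s ≤ i < s + N` with `α ≤ {b ^ i z} < γ` differs from `(γ - α) N` by at most `E`, for every window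
with `s + N ≤ T`. For `α = j / b ^ w`, `γ = (j + 1) / b ^ w` these are the places in the expansion of
`z` in base `b` at which the word of `w` digits with value `j` stands, and `γ - α = b ^ (-w)`. -/
def NormalUpTo (P T E z : ℝ) : Prop :=
  ∀ b s N : ℕ, 2 ≤ b → (b : ℝ) ≤ P → (s : ℝ) + N ≤ T → ∀ α γ : ℝ, 0 ≤ α → α ≤ γ → γ ≤ 1 →
    |((((range N).filter (fun i : ℕ => α ≤ Int.fract ((b : ℝ) ^ (s + i) * z) ∧
      Int.fract ((b : ℝ) ^ (s + i) * z) < γ)).card : ℕ) : ℝ) - (γ - α) * N| ≤ E

open Classical in
/-- For all `g ≥ 2` and `0 < θ < 1` there are `c > 0` and `k₀` such that for all `k ≥ k₀`, all sets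
`D i`, `i < k`, of at least two digits in base `g` and all real `y`: for all but the proportion
`k ^ (-c)` of the integers `m` with the digits in the sets `D i`, in all bases `b ≤ k ^ c` the first
`k ^ θ` digits of `y + m x` are normal up to the error `k ^ (θ - c)`. -/
def MostMultiplesNormal (x : ℝ) : Prop :=
  ∀ g : ℕ, 2 ≤ g → ∀ θ : ℝ, 0 < θ → θ < 1 → ∃ c : ℝ, 0 < c ∧ ∃ k₀ : ℕ, ∀ k : ℕ, k₀ ≤ k →
    ∀ D : Fin k → Finset ℕ, Digits g k D → ∀ y : ℝ,
      (((Dig g k D).filter (fun m : ℕ => ¬ NormalUpTo ((k : ℝ) ^ c) ((k : ℝ) ^ θ)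
        ((k : ℝ) ^ (θ - c)) (y + m * x))).card : ℝ) ≤ (k : ℝ) ^ (-c) * (Dig g k D).card

/-- **Theorem.** Almost all multiples of `x` by integers with restricted digits are normal up to
`k ^ θ` places, where `k` is the number of digits of the multipliers, for every irrational `x` which
is not a Liouville number, and in particular for `e`, `π` and `√2`. -/
theorem result :
    (∀ x : ℝ, Irrational x → ¬ Liouville x → MostMultiplesNormal x) ∧
      MostMultiplesNormal (Real.exp 1) ∧ MostMultiplesNormal Real.pi ∧ MostMultiplesNormal √2 := by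
  have h : ∀ x : ℝ, Irrational x → ¬ Liouville x → MostMultiplesNormal x := by
    intro x hirr hL g hg θ hθ0 hθ1
    obtain ⟨c, hc, k₀, h⟩ := Pool.Agent.Q263.CM.nl_main x hirr hL hg θ hθ0 hθ1
    exact ⟨c, hc, k₀, fun k hk D hD y => h k hk D hD.1 hD.2 y⟩
  exact ⟨h, h _ Pool.Agent.Q263.CM.irr_e Pool.Agent.Q263.CM.nl_e,
    h _ irrational_pi Pool.Agent.Q263.CM.nl_pi,
    h _ irrational_sqrt_two Pool.Agent.Q263.CM.nl_sqrt⟩

end Pool.Agent.Results.MP_7e9a3a_nt.RestrictedMultiples
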