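import Pool.Agent.Q241.SW.C

/-! # Normality of `e`, `π`, `√2` is a family of one-sided bounds at arbitrarily sparse frequencies -/

set_option autoImplicit false

open Filter

namespace Pool.Agent.Results.MP_7e9a3a_nt.SparseWeylCriterion

/-- The digit `a_(i+1)` of the fractional part of `x` in base `b` (the expansion that does not end
in an infinite run of the digit `b - 1`). -/
noncomputable def digit (b : ℕ) (x : ℝ) (i : ℕ) : ℤ := ⌊x * (b : ℝ) ^ (i + 1)⌋ % (b : ℤ)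

/-- `x` is normal to base `b`. -/
def NormalTo (b : ℕ) (x : ℝ) : Prop :=
  ∀ k : ℕ, 0 < k → ∀ w : Fin k → Fin b,
    Tendsto (fun n : ℕ => (((Finset.range n).filter
      (fun i : ℕ => ∀ j : Fin k, digit b x (i + (j : ℕ)) = (((w j : ℕ)) : ℤ))).card : ℝ) / (n : ℝ))
      atTop (nhds ((1 : ℝ) / (b : ℝ) ^ k))

/-- `x` is normal. -/
def Normal (x : ℝ) : Prop := ∀ b : ℕ, 2 ≤ b → NormalTo b x

/-- The mean of `cos (2 π m b ^ n x)` over `0 ≤ n < N`. -/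
noncomputable def cosMean (b : ℕ) (x : ℝ) (m : ℤ) (N : ℕ) : ℝ :=
  (∑ n ∈ Finset.range N, Real.cos (2 * Real.pi * m * (b : ℝ) ^ n * x)) / N

/-- `limsup (cosMean b x m N) ≤ 0` as `N → ∞`. -/
def OneSided (b : ℕ) (x : ℝ) (m : ℤ) : Prop :=
  ∀ ε : ℝ, 0 < ε → ∀ᶠ N : ℕ in atTop, cosMean b x m N ≤ ε

/-- The set `D` contains all the positive differences of some `K` natural numbers, for every `K`. -/
def Ample (D : Set ℕ) : Prop := ∀ K : ℕ, ∃ S : Finset ℕ, K ≤ S.card ∧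
  ∀ s ∈ S, ∀ s' ∈ S, s' < s → s - s' ∈ D

theorem result :
    -- (1) a one-sided criterion along large difference sets
    (∀ b : ℕ, 2 ≤ b → ∀ x : ℝ,
      (NormalTo b x ↔ ∀ m : ℕ, 1 ≤ m → ¬ b ∣ m → ∀ ε : ℝ, 0 < ε →
        Ample {d : ℕ | ∀ᶠ N : ℕ in atTop, cosMean b x (m * ((b : ℤ) ^ d - 1)) N ≤ ε})) ∧
    -- (2) arbitrarily sparse universal sets of frequencies
    (∀ ω : ℕ → ℕ, Tendsto ω atTop atTop →
      ∃ M : Set ℕ, (∀ m ∈ M, 1 ≤ m) ∧ (∀ X : ℕ, (M ∩ Set.Iic X).ncard ≤ ω X) ∧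
        (∀ b : ℕ, 2 ≤ b → ∀ x : ℝ, (NormalTo b x ↔ ∀ m ∈ M, OneSided b x m)) ∧
        (Normal (Real.exp 1) ↔ ∀ b : ℕ, 2 ≤ b → ∀ m ∈ M, OneSided b (Real.exp 1) m) ∧
        (Normal Real.pi ↔ ∀ b : ℕ, 2 ≤ b → ∀ m ∈ M, OneSided b Real.pi m) ∧
        (Normal (Real.sqrt 2) ↔ ∀ b : ℕ, 2 ≤ b → ∀ m ∈ M, OneSided b (Real.sqrt 2) m)) := by
  refine ⟨fun b hb x => Q241.SW.critA b hb x, fun ω hω => ?_⟩
  obtain ⟨M, h1, h2, h3⟩ := Q241.SW.critB ω hω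
  have h4 : ∀ b : ℕ, 2 ≤ b → ∀ x : ℝ, (NormalTo b x ↔ ∀ m ∈ M, OneSided b x m) := h3
  have h5 : ∀ x : ℝ, (Normal x ↔ ∀ b : ℕ, 2 ≤ b → ∀ m ∈ M, OneSided b x m) :=
    fun x => forall_congr' fun b => forall_congr' fun hb => h4 b hb x
  exact ⟨M, h1, h2, h4, h5 _, h5 _, h5 _⟩

end Pool.Agent.Results.MP_7e9a3a_nt.SparseWeylCriterion
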